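import Pool.Agent.Helper63.Sey2.Goals

/-!
# Packet SEY2-ORD
-/

set_option autoImplicit false

namespace Pool.Agent.Helper9.Sey2

open Pool.Agent.Helper63.Sey2

open Classical in
theorem goalORD : GoalLIGHT → GoalLINK2 → GoalORD := by
  intro hLI hL2 A hA
  obtain ⟨c, hc2, hL⟩ := hL2 A
  refine ⟨c, hc2, ?_⟩
  intro V _ H s N C hs hN hdeg hprop hsz
  have hAs : 1 ≤ A * s := Nat.mul_pos hA (by omega)
  have hb : 1 ≤ 2 * (c * (A * s)) := by
    have : 1 ≤ c * (A * s) := Nat.mul_pos (by omega) hAs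
    omega
  obtain ⟨ρ, hρ⟩ := hLI V H s (2 * (c * (A * s))) N C hb hN hdeg (fun x => (hsz x).2)
  have hX : ∀ g : ZMod N, 2 * (c * (A * s)) ≤ (Finset.univ.filter (fun v => ρ (C v) = g)).card := by
    intro g
    have h1 := (hsz (ρ.symm g)).1
    have h2 : Nat.card {v // C v = ρ.symm g} = (Finset.univ.filter (fun v => ρ (C v) = g)).card := by
      rw [Nat.card_eq_fintype_card, Fintype.card_subtype]
      congr 1
      ext v
      simp only [Finset.mem_filter, Finset.mem_univ, true_and]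
      exact ρ.eq_symm_apply
    rw [h2] at h1
    exact h1
  have hP : ∀ g : ZMod N, ∃ P ⊆ Finset.univ.filter (fun v => ρ (C v) = g), P.card = c * (A * s) := by
    intro g
    exact Finset.exists_subset_card_eq (by have := hX g; omega)
  choose P hPX hPc using hP
  have hQ : ∀ g : ZMod N, ∃ Q ⊆ (Finset.univ.filter (fun v => ρ (C v) = g)) \ P g,
      Q.card = c * (A * s) := by
    intro g
    refine Finset.exists_subset_card_eq ?_
    rw [Finset.card_sdiff_of_subset (hPX g), hPc g]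
    have := hX g
    omega
  choose Q hQX hQc using hQ
  have hR : ∀ g : ZMod N, ∃ R L : Finset V, R ⊆ P g ∧ L ⊆ Q (g + 1) ∧ R.card = A * s ∧
      L.card = A * s ∧ ∀ u ∈ R, ∀ w ∈ L, ¬ H.Adj u w := by
    intro g
    refine hL V H s (P g) (Q (g + 1)) hs (hPc g) (hQc _) ?_
    have h1 : Nat.card {p : V × V // p.1 ∈ P g ∧ p.2 ∈ Q (g + 1) ∧ H.Adj p.1 p.2} ≤
        Nat.card {p : V × V // ρ (C p.1) = g ∧ ρ (C p.2) = g + 1 ∧ H.Adj p.1 p.2} := by
      refine Nat.card_le_card_of_injective (fun p => ⟨p.1, ?_, ?_, p.2.2.2⟩) ?_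
      · exact (Finset.mem_filter.1 (hPX g p.2.1)).2
      · exact (Finset.mem_filter.1 (Finset.mem_sdiff.1 (hQX _ p.2.2.1)).1).2
      · intro p q h
        apply Subtype.ext
        exact congrArg (fun z => z.1) h
    calc s * Nat.card {p : V × V // p.1 ∈ P g ∧ p.2 ∈ Q (g + 1) ∧ H.Adj p.1 p.2}
        ≤ s * Nat.card {p : V × V // ρ (C p.1) = g ∧ ρ (C p.2) = g + 1 ∧ H.Adj p.1 p.2} :=
          Nat.mul_le_mul_left _ h1
      _ ≤ 128 * (2 * (c * (A * s))) ^ 2 := hρ g
      _ = 512 * (c * (A * s)) ^ 2 := by ring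
  choose R L hRP hLQ hRc hLc hno using hR
  let τ : V → ℕ := fun v => if v ∈ L (ρ (C v) - 1) then 2 else if v ∈ R (ρ (C v)) then 0 else 1
  have hL' : ∀ g : ZMod N, ∀ v ∈ L (g - 1), v ∈ Q g := by
    intro g v hv
    have := hLQ (g - 1) hv
    rwa [sub_add_cancel] at this
  have hQ' : ∀ g : ZMod N, ∀ v ∈ Q g, ρ (C v) = g ∧ v ∉ P g := by
    intro g v hv
    have h1 := Finset.mem_sdiff.1 (hQX g hv)
    exact ⟨(Finset.mem_filter.1 h1.1).2, h1.2⟩
  have hP' : ∀ g : ZMod N, ∀ v ∈ P g, ρ (C v) = g := by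
    intro g v hv
    exact (Finset.mem_filter.1 (hPX g hv)).2
  have hτ2 : ∀ g : ZMod N, ∀ v ∈ L (g - 1), ρ (C v) = g ∧ τ v = 2 := by
    intro g v hv
    have h1 := (hQ' g v (hL' g v hv)).1
    refine ⟨h1, ?_⟩
    show (if v ∈ L (ρ (C v) - 1) then 2 else if v ∈ R (ρ (C v)) then 0 else 1) = 2
    rw [h1, if_pos hv]
  have hτ0 : ∀ g : ZMod N, ∀ v ∈ R g, ρ (C v) = g ∧ τ v = 0 := by
    intro g v hv
    have h1 := hP' g v (hRP g hv)
    refine ⟨h1, ?_⟩
    have h2 : v ∉ L (g - 1) := fun h => (hQ' g v (hL' g v h)).2 (hRP g hv)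
    show (if v ∈ L (ρ (C v) - 1) then 2 else if v ∈ R (ρ (C v)) then 0 else 1) = 0
    rw [h1, if_neg h2, if_pos hv]
  have hmem : ∀ v, τ v = 0 → v ∈ R (ρ (C v)) := by
    intro v hv
    by_contra h
    by_cases h2 : v ∈ L (ρ (C v) - 1)
    · have h3 : τ v = 2 := if_pos h2
      omega
    · have h3 : τ v = 1 := by
        show (if v ∈ L (ρ (C v) - 1) then 2 else if v ∈ R (ρ (C v)) then 0 else 1) = 1
        rw [if_neg h2, if_neg h]
      omega
  have hmem2 : ∀ v, τ v = 2 → v ∈ L (ρ (C v) - 1) := by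
    intro v hv
    by_contra h
    by_cases h2 : v ∈ R (ρ (C v))
    · have h3 : τ v = 0 := by
        show (if v ∈ L (ρ (C v) - 1) then 2 else if v ∈ R (ρ (C v)) then 0 else 1) = 0
        rw [if_neg h, if_pos h2]
      omega
    · have h3 : τ v = 1 := by
        show (if v ∈ L (ρ (C v) - 1) then 2 else if v ∈ R (ρ (C v)) then 0 else 1) = 1
        rw [if_neg h, if_neg h2]
      omega
  have hle : ∀ v, τ v ≤ 2 := by
    intro v
    show (if v ∈ L (ρ (C v) - 1) then 2 else if v ∈ R (ρ (C v)) then 0 else 1) ≤ 2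
    split_ifs <;> omega
  obtain ⟨σ, hσ⟩ := Pool.Agent.Helper38.Sey.goalASM V H N 3 (A * s) (fun v => ρ (C v)) τ hN
    (by norm_num) (fun v => by have := hle v; omega)
    (fun u v h e => hprop u v h (ρ.injective e))
    (by
      intro u v h e
      by_contra hlt
      have h1 := hle v
      have hu0 : τ u = 0 := by omega
      have hv2 : τ v = 2 := by omega
      have h2 := hmem2 v hv2
      have h3 : ρ (C v) - 1 = ρ (C u) := by
        have e' : ρ (C v) = ρ (C u) + 1 := e
        rw [e', add_sub_cancel_right]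
      rw [h3] at h2
      exact hno _ u (hmem u hu0) v h2 h)
    (by
      intro g j hj
      rw [Nat.card_eq_fintype_card, Fintype.card_subtype]
      have hj' : j = 0 ∨ j = 1 ∨ j = 2 := by omega
      rcases hj' with rfl | rfl | rfl
      · rw [← hRc g]
        refine Finset.card_le_card fun v hv => ?_
        rw [Finset.mem_filter]
        exact ⟨Finset.mem_univ _, hτ0 g v hv⟩
      · have h1 : (Finset.univ.filter (fun v => ρ (C v) = g)) \ (R g ∪ L (g - 1)) ⊆
            Finset.univ.filter (fun v => ρ (C v) = g ∧ τ v = 1) := by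
          intro v hv
          rw [Finset.mem_sdiff, Finset.mem_filter, Finset.mem_union] at hv
          obtain ⟨⟨-, h2⟩, h3⟩ := hv
          rw [Finset.mem_filter]
          refine ⟨Finset.mem_univ _, h2, ?_⟩
          show (if v ∈ L (ρ (C v) - 1) then 2 else if v ∈ R (ρ (C v)) then 0 else 1) = 1
          rw [h2, if_neg fun h => h3 (Or.inr h), if_neg fun h => h3 (Or.inl h)]
        refine le_trans ?_ (Finset.card_le_card h1)
        have h2 := Finset.le_card_sdiff (R g ∪ L (g - 1))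
          (Finset.univ.filter (fun v => ρ (C v) = g))
        have h3 := Finset.card_union_le (R g) (L (g - 1))
        rw [hRc, hLc] at h3
        have h4 := hX g
        have h5 : 2 * (A * s) ≤ c * (A * s) := Nat.mul_le_mul_right _ hc2
        omega
      · rw [← hLc (g - 1)]
        refine Finset.card_le_card fun v hv => ?_
        rw [Finset.mem_filter]
        exact ⟨Finset.mem_univ _, hτ2 g v hv⟩)
  refine ⟨σ, fun i k h => ?_⟩
  have := hσ i k h
  omega

end Pool.Agent.Helper9.Sey2
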